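import Pool.Agent.Run7.h523.KF.Iface3

/-!
# Piece SRT of helper523's project (helper603): sorting is a contraction
-/

set_option autoImplicit false

namespace Run7.h603.KF

open Run7.h523.KF

/-- monotone in `|x|` -/
def SrtMo {P : Type} (x : P → ℤ) (A : P → ℝ) : Prop := ∀ v w, |x v| < |x w| → A v ≤ A w

/-- rearrangement inequality for functions which are monotone in `|x|` -/
theorem srt_rearr {P : Type} [Fintype P] (x : P → ℤ) (hx : ∀ v w, |x v| = |x w| → v = w)
    (A B : P → ℝ) (hA : SrtMo x A) (hB : SrtMo x B) (π : Equiv.Perm P) :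
    ∑ v, A (π v) * B v ≤ ∑ v, A v * B v := by
  apply Monovary.sum_comp_perm_mul_le_sum_mul
  intro v w h
  apply hA
  rcases lt_trichotomy |x v| |x w| with h1 | h1 | h1
  · exact h1
  · exfalso
    have h2 := hx _ _ h1
    subst h2
    exact lt_irrefl _ h
  · exact absurd (hB _ _ h1) (not_le.2 h)

/-- sorted rearrangements are unique -/
theorem srt_uniq {P : Type} [Fintype P] (x : P → ℤ) (hx : ∀ v w, |x v| = |x w| → v = w)
    (A B : P → ℝ) (hA : SrtMo x A) (hB : SrtMo x B) (π : Equiv.Perm P)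
    (hπ : ∀ v, A (π v) = B v) : A = B := by
  have h1 := srt_rearr x hx A B hA hB π
  have h2 : ∑ v, B v ^ 2 = ∑ v, A v ^ 2 := by
    rw [← Equiv.sum_comp π (fun v => A v ^ 2)]
    exact Finset.sum_congr rfl (fun v _ => by rw [hπ v])
  have h3 : ∑ v, B v ^ 2 ≤ ∑ v, A v * B v := by
    refine le_trans (le_of_eq ?_) h1
    exact Finset.sum_congr rfl (fun v _ => by rw [hπ v]; ring)
  have h4 : ∑ v, (A v - B v) ^ 2 = ∑ v, A v ^ 2 + ∑ v, B v ^ 2 - 2 * ∑ v, A v * B v := by
    rw [Finset.mul_sum, ← Finset.sum_add_distrib, ← Finset.sum_sub_distrib]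
    exact Finset.sum_congr rfl (fun v _ => by ring)
  have h5 : ∑ v, (A v - B v) ^ 2 ≤ 0 := by rw [h4]; linarith
  have h6 : ∑ v, (A v - B v) ^ 2 = 0 :=
    le_antisymm h5 (Finset.sum_nonneg (fun v _ => sq_nonneg _))
  funext v
  have h7 := (Finset.sum_eq_zero_iff_of_nonneg (fun v _ => sq_nonneg (A v - B v))).1 h6 v
    (Finset.mem_univ v)
  have h8 : A v - B v = 0 := by simpa using h7
  linarith

/-- existence of a sorting permutation -/
theorem srt_exists {P : Type} [Fintype P] [DecidableEq P] (x : P → ℤ) (A : P → ℝ) :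
    ∃ σ : Equiv.Perm P, SrtMo x (fun v => A (σ v)) := by
  obtain ⟨σ, -, hσ⟩ := Finset.exists_max_image (Finset.univ : Finset (Equiv.Perm P))
    (fun σ => ∑ v, A (σ v) * ((|x v| : ℤ) : ℝ)) ⟨1, Finset.mem_univ _⟩
  refine ⟨σ, fun v w h => ?_⟩
  have hne : v ≠ w := by
    rintro rfl
    exact lt_irrefl _ h
  have h1 := hσ (σ * Equiv.swap v w) (Finset.mem_univ _)
  have h2 : ∑ u, (A ((σ * Equiv.swap v w) u) * ((|x u| : ℤ) : ℝ) - A (σ u) * ((|x u| : ℤ) : ℝ)) =
      (A (σ w) * ((|x v| : ℤ) : ℝ) - A (σ v) * ((|x v| : ℤ) : ℝ)) +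
        (A (σ v) * ((|x w| : ℤ) : ℝ) - A (σ w) * ((|x w| : ℤ) : ℝ)) := by
    rw [Finset.sum_eq_add v w hne]
    · simp [Equiv.Perm.mul_apply]
    · intro c _ hc
      rw [Equiv.Perm.mul_apply, Equiv.swap_apply_of_ne_of_ne hc.1 hc.2, sub_self]
    · intro h'
      exact absurd (Finset.mem_univ _) h'
    · intro h'
      exact absurd (Finset.mem_univ _) h'
  rw [Finset.sum_sub_distrib] at h2
  have h3 : (A (σ w) - A (σ v)) * (((|x w| : ℤ) : ℝ) - ((|x v| : ℤ) : ℝ)) ≥ 0 := by
    nlinarith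
  have h4 : (0 : ℝ) < ((|x w| : ℤ) : ℝ) - ((|x v| : ℤ) : ℝ) := by
    have : ((|x v| : ℤ) : ℝ) < ((|x w| : ℤ) : ℝ) := by exact_mod_cast h
    linarith
  have h5 := nonneg_of_mul_nonneg_left h3 h4
  show A (σ v) ≤ A (σ w)
  linarith

/-- the sign of an integer, `±1` -/
noncomputable def srtSg (k : ℤ) : ℝ := if 0 < k then 1 else -1

theorem srtSg_mul (k : ℤ) : srtSg k * srtSg k = 1 := by
  unfold srtSg
  split_ifs <;> norm_num

/-- points of the chamber -/
theorem srt_chamber {P : Type} [Fintype P] [DecidableEq P] (x : P → ℤ)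
    (hx0 : ∀ v, x v ≠ 0) (z : P → ℝ) (hz : z ∈ Ch x) :
    (∀ v, z v = srtSg (x v) * |z v|) ∧ SrtMo x (fun v => |z v|) := by
  have h1 : ∀ v, 0 < x v → 0 < z v := by
    intro v hv
    have := hz (v, false) (v, true) (by simp [sv]; omega)
    simp [sv] at this
    linarith
  have h2 : ∀ v, x v < 0 → z v < 0 := by
    intro v hv
    have := hz (v, true) (v, false) (by simp [sv]; omega)
    simp [sv] at this
    linarith
  refine ⟨fun v => ?_, fun v w h => ?_⟩
  · unfold srtSg
    rcases lt_or_gt_of_ne (hx0 v) with h | h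
    · rw [if_neg (not_lt.2 h.le), abs_of_neg (h2 v h)]
      ring
    · rw [if_pos h, abs_of_pos (h1 v h)]
      ring
  · show |z v| ≤ |z w|
    rcases lt_or_gt_of_ne (hx0 v) with hv | hv <;> rcases lt_or_gt_of_ne (hx0 w) with hw | hw
    · have := hz (v, false) (w, false) (by
        simp only [sv]
        rw [abs_of_neg hv, abs_of_neg hw] at h
        simpa using h)
      rw [abs_of_neg (h2 v hv), abs_of_neg (h2 w hw)]
      simp [sv] at this
      linarith
    · have := hz (v, false) (w, true) (by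
        simp only [sv]
        rw [abs_of_neg hv, abs_of_pos hw] at h
        simpa using h)
      rw [abs_of_neg (h2 v hv), abs_of_pos (h1 w hw)]
      simp [sv] at this
      linarith
    · have := hz (v, true) (w, false) (by
        simp only [sv]
        rw [abs_of_pos hv, abs_of_neg hw] at h
        simpa using h)
      rw [abs_of_pos (h1 v hv), abs_of_neg (h2 w hw)]
      simp [sv] at this
      linarith
    · have := hz (v, true) (w, true) (by
        simp only [sv]
        rw [abs_of_pos hv, abs_of_pos hw] at h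
        simpa using h)
      rw [abs_of_pos (h1 v hv), abs_of_pos (h1 w hw)]
      simp [sv] at this
      linarith

theorem srt_Om {P : Type} [Fintype P] [DecidableEq P] (R : P × Bool → P × Bool → Prop) (M : ℕ)
    (x : P → ℤ) (hx : x ∈ Om R M) :
    (∀ v, x v ∈ Si M) ∧ ∀ v w, |x v| = |x w| → v = w := by
  classical
  unfold Om at hx
  simp only [Finset.mem_filter, Fintype.mem_piFinset] at hx
  exact ⟨hx.1, hx.2.1⟩

theorem t_SRT : S_CH0 → S_SRT := by
  intro hCH P _ _ x hx
  have hCH' := (hCH P).2.2.2.2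
  classical
  obtain ⟨hx2, hx3⟩ := srt_Om _ _ x hx
  have hx0 : ∀ v, x v ≠ 0 := by
    intro v h0
    have h1 := hx2 v
    unfold Si at h1
    have h2 := (Finset.mem_filter.1 h1).2
    rw [h0] at h2
    exact absurd h2 (by decide)
  have hex : ∀ y : P → ℝ, ∃ σ : Equiv.Perm P, SrtMo x (fun v => |y (σ v)|) := fun y =>
    srt_exists x (fun v => |y v|)
  choose τ hτ using hex
  refine ⟨fun y v => srtSg (x v) * |y (τ y v)|, fun y z => ?_, fun x' hx' => ?_⟩
  · have e1 : ∀ y : P → ℝ, ∑ v, (srtSg (x v) * |y (τ y v)|) ^ 2 = ∑ v, y v ^ 2 := by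
      intro y
      rw [← Equiv.sum_comp (τ y) (fun v => y v ^ 2)]
      refine Finset.sum_congr rfl (fun v _ => ?_)
      rw [mul_pow, sq_abs, pow_two (srtSg (x v)), srtSg_mul, one_mul]
    have e2 : ∑ v, y v * z v ≤
        ∑ v, (srtSg (x v) * |y (τ y v)|) * (srtSg (x v) * |z (τ z v)|) := by
      have e3 : ∑ v, y v * z v ≤ ∑ v, |y v| * |z v| :=
        Finset.sum_le_sum (fun v _ => by rw [← abs_mul]; exact le_abs_self _)
      have e4 : ∑ v, |y v| * |z v| = ∑ v, |y (τ y (((τ z).trans (τ y).symm) v))| * |z (τ z v)| := by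
        rw [← Equiv.sum_comp (τ z) (fun v => |y v| * |z v|)]
        refine Finset.sum_congr rfl (fun v _ => ?_)
        simp
      have e5 := srt_rearr x hx3 (fun v => |y (τ y v)|) (fun v => |z (τ z v)|) (hτ y) (hτ z)
        ((τ z).trans (τ y).symm)
      refine e3.trans ((le_of_eq e4).trans (e5.trans (le_of_eq ?_)))
      refine Finset.sum_congr rfl (fun v _ => ?_)
      have := srtSg_mul (x v)
      calc |y (τ y v)| * |z (τ z v)| = (srtSg (x v) * srtSg (x v)) * (|y (τ y v)| * |z (τ z v)|) := by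
            rw [this, one_mul]
        _ = _ := by ring
    have e6 : ∀ a b : P → ℝ, ∑ v, (a v - b v) ^ 2 = ∑ v, a v ^ 2 + ∑ v, b v ^ 2 -
        2 * ∑ v, a v * b v := by
      intro a b
      rw [Finset.mul_sum, ← Finset.sum_add_distrib, ← Finset.sum_sub_distrib]
      exact Finset.sum_congr rfl (fun v _ => by ring)
    rw [e6, e6 y z, e1 y, e1 z]
    linarith
  · obtain ⟨σ, ε, hε, -, hσ⟩ := hCH' x' hx' x hx
    refine ⟨σ, ε, hε, fun y hy => ?_, hσ⟩
    have hz := (hσ y).1 hy
    obtain ⟨hz1, hz2⟩ := srt_chamber x hx0 _ hz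
    have habs : ∀ v, |ε v * y (σ v)| = |y (σ v)| := by
      intro v
      rw [abs_mul]
      rcases hε v with h | h <;> rw [h] <;> simp
    have hz3 : SrtMo x (fun v => |y (σ v)|) := by
      intro v w h
      have := hz2 v w h
      simp only [habs] at this
      exact this
    have hu := srt_uniq x hx3 (fun v => |y (τ y v)|) (fun v => |y (σ v)|) (hτ y) hz3
      (σ.trans (τ y).symm) (fun v => by simp)
    funext v
    have h1 := congrFun hu v
    have h2 := hz1 v
    simp only [habs] at h2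
    show srtSg (x v) * |y (τ y v)| = ε v * y (σ v)
    have h1' : |y (τ y v)| = |y (σ v)| := h1
    rw [h1']
    exact h2.symm

end Run7.h603.KF
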